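import Pool.Agent.Q128.PawMain

/-!
# `F ≍_2 G` does not imply `F ≍_3 G`

All containments are as induced subgraphs. The definitions (file `Pool.Agent.Q128.PawDefs`):

* `IsFreeColoring H F c`: no colour class of `c` contains `F`.
* `FreeChromaticNumberEq H F k`: `χ(H : -F) = k`, the least number of colours of an `F`-free
  colouring of `H` is `k`.
* `Related n F G`: `F ≍_n G`, some finite graph `H` satisfies `χ(H : -F) = χ(H : -G) = n`.

`F` is the paw (a triangle with a pendant vertex). `G` is the disjoint union of the complete graph
`K₇` and a triangle-free graph which is not 6-colourable (the shift graph on the pairs of 65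
points), together with one more vertex adjacent to all others.
-/

set_option autoImplicit false

namespace Pool.Agent.Results.MP_d44e62_co.TwoNotThree

open Pool.Agent.Q128.Paw

/-- There are finite connected graphs `F` and `G` with at least two vertices such that `F ≍_2 G`
holds and `F ≍_n G` fails for every `n ≥ 3`. -/
theorem result : ∃ (U V : Type) (_ : Finite U) (_ : Finite V) (F : SimpleGraph U)
    (G : SimpleGraph V), Nontrivial U ∧ Nontrivial V ∧ F.Connected ∧ G.Connected ∧
      Related 2 F G ∧ ∀ n : ℕ, 3 ≤ n → ¬ Related n F G := by
  refine ⟨_, _, inferInstance, inferInstance, paw, host 3, inferInstance, inferInstance, ?_,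
    host_connected 3, ⟨_, inferInstance, host 3, host_paw 3 (by norm_num),
      host_host 3 (by norm_num)⟩, ?_⟩
  · have h : ∀ x, paw.Reachable 0 x := by
      intro x
      fin_cases x
      · exact SimpleGraph.Reachable.refl _
      · exact SimpleGraph.Adj.reachable (by simp [paw])
      · exact SimpleGraph.Adj.reachable (by simp [paw])
      · exact SimpleGraph.Adj.reachable (by simp [paw])
    exact ⟨fun x y => (h x).symm.trans (h y)⟩
  · rintro n hn ⟨W, _, H, h⟩
    exact not_related 3 n le_rfl hn H h

end Pool.Agent.Results.MP_d44e62_co.TwoNotThree
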